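import Pool.Agent.Helper16_PRT.Comp
import Pool.Agent.Helper16_PRT.Meas
import Pool.Agent.Helper18_KTK.Comp

/-!
# MP_b2962a_an: almost-reducibility for non-Brjuno rotation vectors

Question Q1 of the problem asks whether every `C^∞` conservative pseudo-rotation `f` of the torus
with totally irrational rotation vector which is regularly semi-conjugate to a translation is
almost-reducible.  We prove that the answer is yes for all `f` (no closeness to a translation is
assumed) whose rotation vector `w` does not satisfy the Brjuno condition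
`∑ 2^(-n) log (1 / min {dist (q w) (ℤ × ℤ) | 1 ≤ q ≤ 2^n}) < ∞`, in particular for all `w` with
`liminf (1/n) log (dist (n w) (ℤ × ℤ)) < 0`, and for every `f` such that for
every `N` there is a time `q ≥ 1` with `dist (q w) (ℤ × ℤ) * (q + max_{m ≤ q} ‖D f^m‖)^N ≤ 1`
(for instance `w` is Liouville and the derivatives of `f^m` grow at most polynomially).

Maps of the torus are given by their lifts to the plane `ℝ × ℝ`.
-/

set_option autoImplicit false

namespace Pool.Agent.Results.MP_b2962a_an.NonBrjunoRotation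

open Set MeasureTheory Filter
open scoped ContDiff Topology

/-- The integer vector `(a, b)` of the plane. -/
def ivec (a b : ℤ) : ℝ × ℝ := ((a : ℝ), (b : ℝ))

/-- `F` is a lift to the plane of a `C^∞` diffeomorphism of the torus `ℝ² / ℤ²`, homotopic to the
identity, which preserves the area, and `G` is the inverse of `F`. -/
structure ConsDiffeo (F G : ℝ × ℝ → ℝ × ℝ) : Prop where
  smooth : ContDiff ℝ ∞ F
  smooth_inv : ContDiff ℝ ∞ G
  left_inv : ∀ z, G (F z) = z
  right_inv : ∀ z, F (G z) = z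
  lift : ∀ (a b : ℤ) (z : ℝ × ℝ), F (z + ivec a b) = F z + ivec a b
  area : MeasurePreserving F volume volume

/-- The torus map with lift `F` is regularly semi-conjugate to the translation by `w`: `H` is a lift
of a continuous map of the torus homotopic to the identity (such a map is automatically
surjective). -/
def RegularlySemiconjugate (F : ℝ × ℝ → ℝ × ℝ) (w : ℝ × ℝ) : Prop :=
  ∃ H : ℝ × ℝ → ℝ × ℝ, Continuous H ∧
    (∀ (a b : ℤ) (z : ℝ × ℝ), H (z + ivec a b) = H z + ivec a b) ∧ ∀ z, H (F z) = H z + w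

/-- Bounded mean motion with rotation vector `w`. -/
def BoundedMeanMotion (F : ℝ × ℝ → ℝ × ℝ) (w : ℝ × ℝ) : Prop :=
  ∃ C : ℝ, ∀ (n : ℕ) (z : ℝ × ℝ), ‖F^[n] z - z - (n : ℝ) • w‖ ≤ C

/-- No positive multiple of `w` is an integer vector (totally irrational vectors satisfy this). -/
def Irrational2 (w : ℝ × ℝ) : Prop :=
  ∀ (q : ℕ) (a b : ℤ), 1 ≤ q → (q : ℝ) • w ≠ ivec a b

/-- The distance of `v` to the integer vectors (the nearest one is obtained by rounding). -/
noncomputable def distZ (v : ℝ × ℝ) : ℝ := ‖v - ivec (round v.1) (round v.2)‖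

/-- The smallest distance to the integer vectors of the multiples `q w`, `1 ≤ q ≤ 2^n`. -/
noncomputable def delta (w : ℝ × ℝ) (n : ℕ) : ℝ :=
  (Finset.Icc 1 (2 ^ n)).inf' ⟨1, Finset.mem_Icc.2 ⟨le_rfl, Nat.one_le_two_pow⟩⟩
    fun q => distZ ((q : ℝ) • w)

/-- The Brjuno condition `∑ 2^(-n) log (1 / delta w n) < ∞` does not hold. -/
def NonBrjuno (w : ℝ × ℝ) : Prop := ¬ Summable fun n : ℕ => -Real.log (delta w n) / 2 ^ n

/-- For some `c > 0` there are infinitely many multiples `q w` which are `exp (-c q)`-close to an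
integer vector, i.e. `liminf (1/n) log (dist (n w) (ℤ × ℤ)) < 0`. -/
def ExpLiouville (w : ℝ × ℝ) : Prop :=
  ∃ c : ℝ, 0 < c ∧ ∀ Q : ℕ, ∃ (q : ℕ) (a b : ℤ), Q ≤ q ∧
    ‖(q : ℝ) • w - ivec a b‖ ≤ Real.exp (-c * q)

/-- For every `N` there is a time `q ≥ 1` such that the distance of `q w` to the integer vectors is
at most `(q + L)^(-N)`, where `L` bounds the derivatives of the iterates `F^m`, `m ≤ q`. -/
def GrowthCondition (F : ℝ × ℝ → ℝ × ℝ) (w : ℝ × ℝ) : Prop :=
  ∀ N : ℕ, ∃ (q : ℕ) (a b : ℤ) (L : ℝ), 1 ≤ q ∧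
    (∀ m ≤ q, ∀ z, ‖fderiv ℝ (F^[m]) z‖ ≤ L) ∧ ‖(q : ℝ) • w - ivec a b‖ * (q + L) ^ N ≤ 1

/-- The torus map with lift `F` is almost-reducible to the translation by `w`: there are `C^∞`
area-preserving diffeomorphisms `h n` (homotopic to the identity, inverse `g n`) such that
`(h n)⁻¹ ∘ F ∘ h n` tends to the translation by `w` uniformly with the derivatives of every
order. -/
def AlmostReducible (F : ℝ × ℝ → ℝ × ℝ) (w : ℝ × ℝ) : Prop :=
  ∃ h g : ℕ → ℝ × ℝ → ℝ × ℝ, (∀ n, ConsDiffeo (h n) (g n)) ∧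
    ∀ k : ℕ, TendstoUniformly
      (fun n z => iteratedFDeriv ℝ k (fun z => g n (F (h n z)) - (z + w)) z) (fun _ => 0) atTop

theorem almost_of_ar {F : ℝ × ℝ → ℝ × ℝ} {w : ℝ × ℝ} (h : Pool.Agent.PRT.AR F w) :
    AlmostReducible F w := by
  have h1 : ∀ n : ℕ, ∃ h g : ℝ × ℝ → ℝ × ℝ, ConsDiffeo h g ∧
      Pool.Agent.PRT.Bd n (1 / ((n : ℝ) + 1)) (fun z => g (F (h z)) - (z + w)) := by
    intro n
    obtain ⟨h, g, hs, gs, h1, h2, hE, hd, hb⟩ := h n (1 / ((n : ℝ) + 1)) (by positivity)
    refine ⟨h, g, ⟨hs, gs, h1, h2, hE, Pool.Agent.PRT.H16.mp_of_det hs h1 h2 hd⟩, ?_⟩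
    have e : (fun z => g (F (h z)) - (z + w)) = fun z => g (F (h z)) - z - w := by
      funext z
      rw [sub_sub]
    rw [e]
    exact hb
  choose h g hc hb using h1
  refine ⟨h, g, hc, ?_⟩
  intro k
  rw [Metric.tendstoUniformly_iff]
  intro ε hε
  obtain ⟨m, hm⟩ := exists_nat_one_div_lt hε
  filter_upwards [eventually_ge_atTop (max k m)] with n hn z
  have hk : k ≤ n := (le_max_left k m).trans hn
  have hmn : (m : ℝ) ≤ n := by exact_mod_cast (le_max_right k m).trans hn
  rw [dist_comm, dist_zero_right]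
  calc _ ≤ 1 / ((n : ℝ) + 1) := hb n k hk z
    _ ≤ 1 / ((m : ℝ) + 1) := one_div_le_one_div_of_le (by positivity) (by linarith)
    _ < ε := hm

/-- **Almost-reducibility.** (The three alternatives are nested: `ExpLiouville` implies `NonBrjuno`, and
for maps as in the theorem `NonBrjuno` implies `GrowthCondition`, which is the main point; in the same way
semi-conjugate maps have bounded mean motion.) -/
theorem result (F G : ℝ × ℝ → ℝ × ℝ) (w : ℝ × ℝ) (hF : ConsDiffeo F G) (hw : Irrational2 w)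
    (hs : RegularlySemiconjugate F w ∨ BoundedMeanMotion F w)
    (ha : NonBrjuno w ∨ ExpLiouville w ∨ GrowthCondition F w) :
    AlmostReducible F w := by
  have hd : ∀ z, (fderiv ℝ F z).det = 1 :=
    Pool.Agent.PRT.H16.det_of_mp Pool.Agent.PRT.H16C.cITG hF.smooth hF.smooth_inv hF.left_inv
      hF.right_inv hF.lift hF.area
  obtain ⟨C, hC⟩ : BoundedMeanMotion F w := by
    rcases hs with ⟨H, hH1, hH2, hH3⟩ | h
    · exact Pool.Agent.PRT.H16C.cDEV F H w hH1 hH2 hH3
    · exact h
  have hL : Pool.Agent.PRT.Lf F w C :=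
    ⟨hF.smooth, ⟨G, hF.smooth_inv, hF.left_inv, hF.right_inv⟩, hF.lift, hd, hC⟩
  have hG : GrowthCondition F w := by
    rcases ha with h | ⟨c, hc, h⟩ | h
    · exact Pool.Agent.KTK.H18.nonBrjuno F w C ⟨hF.smooth, hF.lift, hd⟩ hC hw h
    · exact Pool.Agent.KTK.H18.expLiouville F w C c ⟨hF.smooth, hF.lift, hd⟩ hC hw hc h
    · exact h
  exact almost_of_ar (Pool.Agent.PRT.H16C.cFIN F w C hL (Pool.Agent.PRT.H16.hypA_of hw hG))

end Pool.Agent.Results.MP_b2962a_an.NonBrjunoRotation
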